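import Pool.Agent.N625.PT.K
import Pool.Agent.N469.TL.BT
import Pool.Agent.Run7.h927.CG.Mono

/-!
# The Brun–Titchmarsh inequality with the constant `1` for almost all classes, for all the multiples of random moduli

All the multiples `h q`, `h ≤ k ^ J`, of all the integers `q` near a random integer are considered at once.
The random integer `v` has `k` digits in base `b`, and its digits (1) are the labels of a walk between two vertices of a
graph, which may be infinite, for example of the Cayley graph of a group (then these are the integers whose digits spell a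
given element of the group; such a set can contain as few as `N ^ ε` integers below `N = b ^ k`), or (2) form a correctly
nested word over an alphabet of opening, closing and neutral digits, or (3) form a Markov random field on an arbitrary
graph of positions of bounded degree.

Method: the exponential sums of these three kinds of distributions are small at the frequencies with many good positions
(starting files `Pool.Agent.N625.GW`, `Pool.Agent.N625.DY` of helper625, `Pool.Agent.N213.GF` of helper213), hence all the
multiples of the random integers have a thin large spectrum (`Pool.Agent.Run7.h927.CG`); this gives the asymptotic formula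
for the variance of the primes in the reduced classes (`Pool.Agent.N625.PT.t_var`, helper625); and the passage from the variance to the number of
primes in all the intervals (`Pool.Agent.N469.TL.BT.det`, helper469).

Examples of random fields, proved in `Pool.Agent.N213.GF.E` and `Pool.Agent.N213.GF.F`: the uniform distribution on the
solutions of local constraints with flexible digits on a graph of positions with degrees at most `Δ`, with
`η = 1 / b ^ (Δ + 1)` (`unif_field`); in particular the integers whose nonzero digits form an independent set of the graph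
(`indep_local`), and, for `b ≥ Δ + 2`, the integers whose digits are a proper colouring of the graph (`colour_local`).

`∑ v ∈ range (b ^ k), (if P v then 0 else p v)` is the probability that the random integer `v < b ^ k` with the
distribution `p` does not have the property `P`.
-/

set_option autoImplicit false

namespace Pool.Agent.Results.MP_26a8c3_nt.DigitLawModuli

open Finset

/-- The digits `a < b` act on the set `X` of the vertices: an edge with the label `a` leads from `x` to `y` if
`δ x a = some y` (at most one edge with the label `a` starts at `x`). The number of the edges from `x` to `y` equals the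
number of the edges from `y` to `x`, and at least two edges start at every vertex. The graph may be infinite. -/
structure Graph {X : Type} (b : ℕ) (δ : X → ℕ → Option X) : Prop where
  symm : ∀ x y : X, {a : ℕ | a < b ∧ δ x a = some y}.ncard = {a : ℕ | a < b ∧ δ y a = some x}.ncard
  two : ∀ x : X, ∃ a a' : ℕ, a < a' ∧ a' < b ∧ (δ x a).isSome ∧ (δ x a').isSome

open Classical in
/-- The integers `v < b ^ k` whose `k` digits in base `b`, from the most significant to the least significant one (the
digit number `i`, `0 ≤ i < k`, from the left is `v / b ^ (k - 1 - i) % b`), are the labels of a walk from `x` to `y`. -/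
noncomputable def walks {X : Type} (b : ℕ) (δ : X → ℕ → Option X) (k : ℕ) (x y : X) : Finset ℕ :=
  (range (b ^ k)).filter fun v =>
    ((List.range k).map fun i => v / b ^ (k - 1 - i) % b).foldl (fun s a => s.bind fun z => δ z a) (some x) = some y

/-- `P` is a set of pairs of an opening digit and a closing digit which match each other, `E` is a set of neutral
digits; the digits are smaller than `b`, no digit plays two of the three roles, and there is at least one pair.
(An opening digit can match several closing digits, and conversely.) -/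
structure Alphabet (b : ℕ) (P : Finset (ℕ × ℕ)) (E : Finset ℕ) : Prop where
  lt : ∀ p ∈ P, p.1 < b ∧ p.2 < b
  ne : ∀ p ∈ P, ∀ p' ∈ P, p.1 ≠ p'.2
  neutral : ∀ a ∈ E, a < b ∧ ∀ p ∈ P, a ≠ p.1 ∧ a ≠ p.2
  nonempty : P.Nonempty

/-- The correctly nested words: the empty word; a neutral digit followed by a correctly nested word; and `o u c w`,
where `u` and `w` are correctly nested words and the opening digit `o` matches the closing digit `c`. -/
inductive Balanced (P : Finset (ℕ × ℕ)) (E : Finset ℕ) : List ℕ → Prop
  | nil : Balanced P E []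
  | neutral (a : ℕ) (w : List ℕ) : a ∈ E → Balanced P E w → Balanced P E (a :: w)
  | pair (o c : ℕ) (u w : List ℕ) : (o, c) ∈ P → Balanced P E u → Balanced P E w → Balanced P E (o :: (u ++ c :: w))

open Classical in
/-- The integers `v < b ^ k` whose `k` digits in base `b`, from the most significant to the least significant one (the
digit number `i`, `0 ≤ i < k`, from the left is `v / b ^ (k - 1 - i) % b`), form a correctly nested word. -/
noncomputable def brackets (b : ℕ) (P : Finset (ℕ × ℕ)) (E : Finset ℕ) (k : ℕ) : Finset ℕ :=
  (range (b ^ k)).filter fun v => Balanced P E ((List.range k).map fun i => v / b ^ (k - 1 - i) % b)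

/-- The digit of `v` at the position `i` in base `b` (the position `0` is the least significant one). -/
def dig (b v i : ℕ) : ℕ := v / b ^ i % b

/-- The integer which has the digits of `v` at the positions in `S` and the digits of `w` at the other positions below `k`. -/
def splice (b k : ℕ) (S : Finset ℕ) (v w : ℕ) : ℕ := ∑ i ∈ range k, (if i ∈ S then dig b v i else dig b w i) * b ^ i

/-- `v` and `w` have the same digits outside the set `S` of positions. -/
def Off (b : ℕ) (S : Finset ℕ) (v w : ℕ) : Prop := ∀ i, i ∉ S → dig b v i = dig b w i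

open Classical in
/-- The closed neighbourhood of the position `i` in the graph `A` on the positions `0, …, k - 1`. -/
noncomputable def nb (k : ℕ) (A : ℕ → ℕ → Prop) (i : ℕ) : Finset ℕ := (range k).filter fun j => j = i ∨ A i j

open Classical in
/-- The total weight of the integers below `b ^ k` which have the same digits as `v` outside `S`. -/
noncomputable def mass (b k : ℕ) (p : ℕ → ℝ) (S : Finset ℕ) (v : ℕ) : ℝ :=
  ∑ w ∈ (range (b ^ k)).filter (fun w => Off b S w v), p w

/-- The digits of a random integer `v < b ^ k` (with the probabilities `p v`) form a Markov random field on a graph `A` of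
positions with degrees at most `Δ` (the Markov property: for every set `S` of positions and all `v`, `w` which have the same
digits at the positions outside `S` adjacent to `S`, the product `p v * p w` does not change if `v` and `w` exchange their
digits in `S`), and each digit is flexible: for every `v` with `p v ≠ 0` and every position `i`, there are `x` and `y` which
have the same digits as `v` outside the closed neighbourhood of `i`, which differ from each other exactly at the position
`i`, and whose conditional probabilities, given the digits outside this neighbourhood, are at least `η`. -/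
structure Field (b k Δ : ℕ) (η : ℝ) (A : ℕ → ℕ → Prop) (p : ℕ → ℝ) : Prop where
  symm : ∀ i j, A i j → A j i
  degree : ∀ i < k, (nb k A i).card ≤ Δ + 1
  nonneg : ∀ v, 0 ≤ p v
  sum : ∑ v ∈ range (b ^ k), p v = 1
  markov : ∀ S : Finset ℕ, ∀ v < b ^ k, ∀ w < b ^ k, (∀ i ∈ S, ∀ j < k, j ∉ S → A i j → dig b v j = dig b w j) →
    p v * p w = p (splice b k S v w) * p (splice b k S w v)
  flexible : ∀ v < b ^ k, p v ≠ 0 → ∀ i < k, ∃ x < b ^ k, ∃ y < b ^ k, Off b (nb k A i) x v ∧ Off b {i} y x ∧
    dig b y i ≠ dig b x i ∧ η * mass b k p (nb k A i) v ≤ p x ∧ η * mass b k p (nb k A i) v ≤ p y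

open Classical in
/-- The uniform distribution on the finite set `S`. -/
noncomputable def uniform (S : Finset ℕ) (v : ℕ) : ℝ := if v ∈ S then 1 / (S.card : ℝ) else 0

/-- The families of distributions of a random integer `v < b ^ k` which are considered here (`𝓕 k p` means that the
distribution `p` belongs to the family).
* `walks`: the uniform distribution on the integers whose `k` digits are the labels of a walk from `x₀` to some vertex `y`,
  where the number of the closed walks of length `2n` at `x₀` is at most `ρ ^ (2n)` for all `n`, and the number of the walks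
  of length `k` from `x₀` to `y` is at least `ρ ^ k / k ^ D` (all vertices `y` with this property are allowed);
* `words`: the uniform distribution on the integers whose `k` digits form a correctly nested word;
* `fields`: the digits form a Markov random field with flexible digits, on any graph of positions with degrees at most `Δ`. -/
inductive Law (b : ℕ) : (ℕ → (ℕ → ℝ) → Prop) → Prop
  | walks {X : Type} (δ : X → ℕ → Option X) (x₀ : X) (ρ : ℝ) (D : ℕ) : Graph b δ → 0 < ρ →
      (∀ n : ℕ, ((walks b δ (2 * n) x₀ x₀).card : ℝ) ≤ ρ ^ (2 * n)) →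
      Law b fun k p => ∃ y : X, ρ ^ k ≤ (k : ℝ) ^ D * (walks b δ k x₀ y).card ∧ p = uniform (walks b δ k x₀ y)
  | words (P : Finset (ℕ × ℕ)) (E : Finset ℕ) : Alphabet b P E →
      Law b fun k p => (brackets b P E k).Nonempty ∧ p = uniform (brackets b P E k)
  | fields (Δ : ℕ) (η : ℝ) : 2 ≤ b → 0 < η → Law b fun k p => ∃ A : ℕ → ℕ → Prop, Field b k Δ η A p

/-- `N(x, y; q, l)` for `0 ≤ y ≤ x` and `0 ≤ l < q`: the number of the primes `p` with `x - y < p ≤ x` and
`p ≡ l (mod q)` -/
noncomputable def cnt (x y : ℝ) (q l : ℕ) : ℕ :=
  ((Ioc ⌊x - y⌋₊ ⌊x⌋₊).filter (fun p => p.Prime ∧ p % q = l)).card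

open Classical in
/-- For all `l` with `0 ≤ l < q` and `gcd(l, q) = 1`, except for at most `φ(q) / (log q) ^ T` of them:
`N(x, y; q, l) ≤ (1 + ε) y / (φ(q) log q)` for ALL real `x`, `y` with `q (log q) ^ C ≤ y ≤ x ≤ q (log q) ^ (C + D)`. -/
def Holds (ε : ℝ) (T C D q : ℕ) : Prop :=
  (((range q).filter (fun l => Nat.Coprime l q ∧ ∃ x y : ℝ, q * Real.log q ^ C ≤ y ∧ y ≤ x ∧
    x ≤ q * Real.log q ^ (C + D) ∧ (1 + ε) * (y / (Nat.totient q * Real.log q)) < cnt x y q l)).card : ℝ) ≤
    Nat.totient q / Real.log q ^ T

lemma bal_iff (P : Finset (ℕ × ℕ)) (E : Finset ℕ) (w : List ℕ) : Balanced P E w ↔ Pool.Agent.N625.DY.Balanced P E w := by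
  constructor
  · intro h
    induction h with
    | nil => exact .nil
    | neutral a w h1 _ ih => exact .neutral a w h1 ih
    | pair o c u w h1 _ _ ih1 ih2 => exact .pair o c u w h1 ih1 ih2
  · intro h
    induction h with
    | nil => exact .nil
    | neutral a w h1 _ ih => exact .neutral a w h1 ih
    | pair o c u w h1 _ _ ih1 ih2 => exact .pair o c u w h1 ih1 ih2

lemma brackets_eq (b : ℕ) (P : Finset (ℕ × ℕ)) (E : Finset ℕ) (k : ℕ) :
    brackets b P E k = Pool.Agent.N625.DY.brackets b P E k := by
  classical
  unfold brackets Pool.Agent.N625.DY.brackets Pool.Agent.N625.DY.word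
  ext v
  rw [mem_filter, mem_filter, bal_iff]

lemma field_conv {b k Δ : ℕ} {η : ℝ} {A : ℕ → ℕ → Prop} {p : ℕ → ℝ} (h : Field b k Δ η A p) :
    Pool.Agent.N213.GF.Field b k Δ η A p :=
  ⟨h.symm, h.degree, h.nonneg, h.sum, h.markov, h.flexible⟩

theorem good_of {b : ℕ} {𝓕 : ℕ → (ℕ → ℝ) → Prop} (h : Law b 𝓕) : ∃ M, Pool.Agent.Run7.h927.CG.Good b M 𝓕 := by
  rcases h with ⟨δ, x₀, ρ, D, hG, hρ, hR⟩ | ⟨P, E, hA⟩ | ⟨Δ, η, hb, hη⟩
  · refine ⟨_, (Pool.Agent.Run7.h927.CG.w_good (δ := δ) ⟨hG.symm, hG.two⟩ x₀ ρ hρ hR D).mono ?_⟩
    rintro k p ⟨y, h1, rfl⟩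
    exact ⟨y, h1, rfl⟩
  · have hA' : Pool.Agent.N625.DY.Alphabet b P E := ⟨hA.lt, hA.ne, hA.neutral, hA.nonempty⟩
    refine ⟨_, (Pool.Agent.Run7.h927.CG.br_good hA').mono ?_⟩
    rintro k p ⟨h1, rfl⟩
    rw [brackets_eq] at h1 ⊢
    refine ⟨?_, rfl⟩
    by_contra h2
    rw [Pool.Agent.N625.DY.br_empty k h2] at h1
    exact Finset.not_nonempty_empty h1
  · refine ⟨_, (Pool.Agent.Run7.h927.CG.gf_good b Δ η hb hη).mono ?_⟩
    rintro k p ⟨A, hF⟩
    exact ⟨A, field_conv hF⟩

theorem tcls_of {b : ℕ} {𝓕 : ℕ → (ℕ → ℝ) → Prop} (h : Law b 𝓕) (κ : ℤ) (hκ : κ ≠ 0) : Pool.Agent.N625.PT.TCls b κ 𝓕 := by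
  obtain ⟨M, hM⟩ := good_of h
  exact Pool.Agent.Run7.h927.CG.tcls hM κ hκ

open Classical in
/-- Let `0 < ε ≤ 1`, `D`, `T` and `C ≥ 2 D + T + 2` be fixed, and let `Holds` be the following property of a modulus `q`: for
all reduced classes `l` modulo `q`, except for at most `φ(q) / (log q) ^ T` of them, `N(x, y; q, l) ≤ (1 + ε) y / (φ(q) log q)`
for ALL real `x`, `y` with `q (log q) ^ C ≤ y ≤ x ≤ q (log q) ^ (C + D)`.

Let `𝓕` be one of the families of distributions in `Law b` (digits which label walks in a graph; correctly nested words;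
Markov random fields), let `κ ≠ 0`, `B`, `J`, `W`, `U` be fixed, let `k` be large, let `v < b ^ k` be a random integer whose
distribution `p` belongs to the family, and let `c` be an arbitrary integer with `|c| ≤ B b ^ k`. With a probability of at
least `1 - 1 / k ^ U`, ALL the multiples `h q`, `1 ≤ h ≤ k ^ J`, of ALL the integers `q ≥ 1` with `|q - (c + κ v)| ≤ k ^ W`
have the property `Holds`. -/
theorem result (ε : ℝ) (hε : 0 < ε) (hε1 : ε ≤ 1) (C D T : ℕ) (hC : 2 * D + T + 2 ≤ C) (b : ℕ) (𝓕 : ℕ → (ℕ → ℝ) → Prop)
    (hF : Law b 𝓕) (κ : ℤ) (hκ : κ ≠ 0) (B J W U : ℕ) :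
    ∃ k₀ : ℕ, ∀ k : ℕ, k₀ ≤ k → ∀ p : ℕ → ℝ, 𝓕 k p → ∀ c : ℤ, |c| ≤ B * (b : ℤ) ^ k →
      ∑ v ∈ range (b ^ k), (if ∀ q : ℕ, 1 ≤ q → |(q : ℤ) - (c + κ * v)| ≤ (k : ℤ) ^ W → ∀ h : ℕ, 1 ≤ h → h ≤ k ^ J →
        Holds ε T C D (h * q) then 0 else p v) ≤ 1 / (k : ℝ) ^ U := by
  obtain ⟨Q₀, h⟩ := Pool.Agent.N469.TL.BT.det ε hε hε1 C D T hC
  exact Pool.Agent.N625.PT.t_var (tcls_of hF κ hκ) B J W (C + D + 1) U 1 one_pos le_rfl (fun q => Holds ε T C D q) Q₀
    (fun q hq hvar => h q hq fun x hx1 hx2 => by
      have h1 := (abs_le.1 (hvar x hx1 hx2)).2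
      linarith)

end Pool.Agent.Results.MP_26a8c3_nt.DigitLawModuli
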