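import Pool.Agent.Run7.h582.FM.Var
import Pool.Agent.Run7.h582.FM.Mono
import Pool.Agent.TH872.GQ.BT

/-!
# The Brun–Titchmarsh inequality with the constant `1` for almost all classes to all moduli near `lam n * x + c n`, for almost every `x` of all measures with Fourier decay

Let `N n ≥ exp (n ^ η)`, and let `lam n`, `c n` be real numbers with `N n / log ^ T (N n) ≤ lam n ≤ B N n` and
`|c n| ≤ B N n`. A real number `x` is called generic if for all `D`, `T`, `C ≥ 2 D + T + 2`, `W` and `ε > 0` and for all large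
`n` the property `Holds ε T C D q` below (the inequality of Brun and Titchmarsh with the constant `1 + ε` instead of `2`, for
all intervals, for almost all classes) holds for ALL the moduli `q` at a distance of at most `log ^ W (N n)` from
`lam n * x + c n`.

Almost every `x` is generic with respect to EVERY finite Borel measure with bounded support whose Fourier transform is
`O (|ξ| ^ (-δ))` for some `δ > 0`. Thus the set of the real numbers which are not generic has Fourier dimension zero.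

The proof: the measure is replaced by finite families of real numbers with the same exponential sums
(`Pool.Agent.Run7.h582.FM`); the large spectrum of the multiples of the members of such families is thin, and then the method
of the starting files (`Pool.Agent.Y958.RM`, `Pool.Agent.N384.MQ`) gives the variance for almost all members; the passage from
the variance to the inequality is from the starting files (`Pool.Agent.TH872.GQ.BT`); the properties of the exponential sums
of finite families of real numbers are from helper844's files (`Pool.Agent.Run7.h844.RP`).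
-/

set_option autoImplicit false

namespace Pool.Agent.Results.MP_26a8c3_nt.FourierDecayModuli

open Finset Filter MeasureTheory

/-- `N(x, y; q, l)` for `0 ≤ y ≤ x` and `0 ≤ l < q`: the number of the primes `p` with `x - y < p ≤ x` and
`p ≡ l (mod q)` -/
noncomputable def cnt (x y : ℝ) (q l : ℕ) : ℕ :=
  ((Ioc ⌊x - y⌋₊ ⌊x⌋₊).filter (fun p => p.Prime ∧ p % q = l)).card

open Classical in
/-- For all `l` with `0 ≤ l < q` and `gcd(l, q) = 1`, except for at most `φ(q) / (log q) ^ T` of them: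
`N(x, y; q, l) ≤ (1 + ε) y / (φ(q) log q)` for ALL real `x`, `y` with `q (log q) ^ C ≤ y ≤ x ≤ q (log q) ^ (C + D)`. -/
def Holds (ε : ℝ) (T C D q : ℕ) : Prop :=
  (((range q).filter (fun l => Nat.Coprime l q ∧ ∃ x y : ℝ, q * Real.log q ^ C ≤ y ∧ y ≤ x ∧
    x ≤ q * Real.log q ^ (C + D) ∧ (1 + ε) * (y / (Nat.totient q * Real.log q)) < cnt x y q l)).card : ℝ) ≤
    Nat.totient q / Real.log q ^ T

/-- `N n ≥ exp (n ^ η)`, `|c n| ≤ B N n` and `N n / log ^ T (N n) ≤ lam n ≤ B N n` for large `n`. -/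
def Scales (η : ℝ) (B T : ℕ) (N : ℕ → ℕ) (lam c : ℕ → ℝ) : Prop :=
  ∀ᶠ n : ℕ in atTop, Real.exp ((n : ℝ) ^ η) ≤ N n ∧ |c n| ≤ B * N n ∧ lam n ≤ B * N n ∧
    (N n : ℝ) ≤ lam n * Real.log (N n) ^ T

/-- For all `D`, `S`, `C ≥ 2 D + S + 2`, `W`, `ε > 0` and all large `n`, `Holds ε S C D q` is true for all the integers
`q ≥ 1` at a distance of at most `log ^ W (N n)` from `lam n * x + c n`. -/
def Generic (N : ℕ → ℕ) (lam c : ℕ → ℝ) (x : ℝ) : Prop :=
  ∀ C D S W : ℕ, 2 * D + S + 2 ≤ C → ∀ ε : ℝ, 0 < ε → ∀ᶠ n : ℕ in atTop, ∀ q : ℕ, 0 < q →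
    |(q : ℝ) - (lam n * x + c n)| ≤ Real.log (N n) ^ W → Holds ε S C D q

/-- `μ` is a finite Borel measure with bounded support and its Fourier transform `ξ ↦ ∫ exp (i ξ t) dμ (t)` is
`O (|ξ| ^ (-δ))` for some `δ > 0`. -/
def FourierDecay (μ : Measure ℝ) : Prop :=
  IsFiniteMeasure μ ∧ (∃ R : ℝ, μ (Set.Icc (-R) R)ᶜ = 0) ∧ ∃ C δ : ℝ, 0 < δ ∧ ∀ ξ : ℝ, ξ ≠ 0 →
    ‖∫ t : ℝ, Complex.exp (((ξ * t : ℝ) : ℂ) * Complex.I) ∂μ‖ ≤ C * |ξ| ^ (-δ)

lemma holds_mono {ε ε' : ℝ} (h : ε ≤ ε') {S C D q : ℕ} (hG : Holds ε S C D q) : Holds ε' S C D q := by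
  classical
  unfold Holds at hG ⊢
  refine le_trans ?_ hG
  apply Nat.cast_le.2
  apply card_le_card
  intro l hl
  rw [mem_filter] at hl ⊢
  obtain ⟨h1, h2, x, y, h3, h4, h5, h6⟩ := hl
  refine ⟨h1, h2, x, y, h3, h4, h5, lt_of_le_of_lt ?_ h6⟩
  have h7 : 0 ≤ Real.log (q : ℝ) := Real.log_natCast_nonneg q
  have hy : 0 ≤ y := le_trans (by positivity) h3
  exact mul_le_mul_of_nonneg_right (by linarith) (by positivity)

lemma rcgood (ε : ℝ) (hε : 0 < ε) (hε1 : ε ≤ 1) (C D S : ℕ) (hC : 2 * D + S + 2 ≤ C) :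
    Pool.Agent.Run7.h582.FM.RCgood (Holds ε S C D) := by
  obtain ⟨Q₀, hdet⟩ := Pool.Agent.TH872.GQ.BT.det ε hε hε1 C D S hC
  refine (Pool.Agent.Run7.h582.FM.rcgood_var 1 one_pos (C + D + 1)).mono (Q₀ + 2) fun q hq hv => ?_
  refine hdet q (by omega) fun y hy1 hy2 => ?_
  have e1 := hv y hy1 hy2
  have e2 := (abs_le.1 e1).2
  show Pool.Agent.TH894.PV.G y q ≤ 2 * (y * Real.log q)
  linarith

/-- Let `η > 0`, `B`, `T` and sequences `N`, `lam`, `c` with `Scales η B T N lam c` be given. Then almost every real number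
`x` is generic with respect to every measure `μ` with `FourierDecay μ`: for all `D`, `S`, `C ≥ 2 D + S + 2`, `W`, `ε > 0` and
all large `n`, for ALL the moduli `q ≥ 1` with `|q - (lam n * x + c n)| ≤ log ^ W (N n)`, for all reduced classes `l` modulo
`q`, except for at most `φ(q) / (log q) ^ S` of them, one has `N(x, y; q, l) ≤ (1 + ε) y / (φ(q) log q)` for ALL real `x`, `y`
with `q (log q) ^ C ≤ y ≤ x ≤ q (log q) ^ (C + D)`. -/
theorem result (η : ℝ) (hη : 0 < η) (B T : ℕ) (N : ℕ → ℕ) (lam c : ℕ → ℝ)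
    (hS : Scales η B T N lam c) (μ : Measure ℝ) (hμ : FourierDecay μ) :
    ∀ᵐ x ∂μ, Generic N lam c x := by
  have key := Pool.Agent.Run7.h582.FM.ae_pos
    (fun i : ℕ × {z : ℕ × ℕ × ℕ // 2 * z.2.1 + z.2.2 + 2 ≤ z.1} =>
      Holds (1 / ((i.1 : ℝ) + 1)) i.2.1.2.2 i.2.1.1 i.2.1.2.1)
    (fun i => rcgood _ (by positivity) (by
      rw [div_le_one (by positivity)]
      linarith [(Nat.cast_nonneg i.1 : (0 : ℝ) ≤ (i.1 : ℝ))]) _ _ _ i.2.2) μ hμ η hη B T N lam c hS
  filter_upwards [key] with x hx C D S W hC ε hε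
  obtain ⟨k, hk⟩ := exists_nat_one_div_lt hε
  filter_upwards [hx (k, ⟨(C, D, S), hC⟩) W] with n hn q hq hqn
  exact holds_mono hk.le (hn q hq hqn)

end Pool.Agent.Results.MP_26a8c3_nt.FourierDecayModuli
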