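import Pool.Agent.Run7.h710.TR.Cnt
import Pool.Agent.N625.PT.K
import Pool.Agent.R501.BT1

/-!
# The Brun–Titchmarsh inequality with the constant `1` for almost all classes, to the multiples of moduli written by a
transducer

The integers `v < a ^ k` are arbitrary, up to few exceptions; the transducer `T` reads the digits of `v` in base `a` and
writes the digits of `T(v)` in base `b` (definitions in `Pool.Agent.Run7.h710.TR.Defs`).

Method: if two words of `L` digits lead from the same state to the same state and different words are written, then the two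
parts of the exponential sum over the integers `T(v)` which belong to these words cancel in part at the places where the
frequency has a digit which is not extremal. The passage from such exponential sums to the variance and to
almost all classes is from the starting files (`Pool.Agent.N625.PT.t_var`, `Pool.Agent.TH872.GQ.BT`).

Examples: the bitwise conjunction or disjunction of `v` and `m v` (the carries are the states); the integer whose digit `i`
is `f(x_i, x_{i+1}, …, x_{i+r})`, where `x_i` are the digits of `v` and `f` is not constant (one-sided cellular automata).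
-/

set_option autoImplicit false

namespace Pool.Agent.Results.MP_26a8c3_nt.TransducerModuli

open Finset Pool.Agent.Run7.h710.TR

/-- `N(x, y; q, l)` for `0 ≤ y ≤ x` and `0 ≤ l < q`: the number of the primes `p` with `x - y < p ≤ x` and
`p ≡ l (mod q)` -/
noncomputable def cnt (x y : ℝ) (q l : ℕ) : ℕ :=
  ((Ioc ⌊x - y⌋₊ ⌊x⌋₊).filter (fun p => p.Prime ∧ p % q = l)).card

open Classical in
/-- For all `l` with `0 ≤ l < q` and `gcd(l, q) = 1`, except for at most `φ(q) / (log q) ^ V` of them:
`N(x, y; q, l) ≤ (1 + ε) y / (φ(q) log q)` for ALL real `x`, `y` with `q (log q) ^ M ≤ y ≤ x ≤ q (log q) ^ (M + D)`. -/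
def Holds (ε : ℝ) (V M D q : ℕ) : Prop :=
  (((range q).filter (fun l => Nat.Coprime l q ∧ ∃ x y : ℝ, q * Real.log q ^ M ≤ y ∧ y ≤ x ∧
    x ≤ q * Real.log q ^ (M + D) ∧ (1 + ε) * (y / (Nat.totient q * Real.log q)) < cnt x y q l)).card : ℝ) ≤
    Nat.totient q / Real.log q ^ V

lemma holds_iff (ε : ℝ) (V M D q : ℕ) : Holds ε V M D q ↔ Pool.Agent.R501.BT.Bt ε V M D q := Iff.rfl

lemma holds_of (ε : ℝ) (hε : 0 < ε) (hε1 : ε ≤ 1) (M D V : ℕ) (hM : 2 * D + V + 2 ≤ M) : ∃ Q₀ : ℕ, ∀ Q : ℕ, Q₀ ≤ Q →
    (∀ x : ℝ, (Q : ℝ) ≤ x → x ≤ Q * Real.log Q ^ (M + D + 1) →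
      |Pool.Agent.TH894.PV.G x Q - x * Real.log Q| ≤ 1 * (x * Real.log Q)) → Holds ε V M D Q := by
  obtain ⟨Q₀, h⟩ := Pool.Agent.TH872.GQ.BT.det ε hε hε1 M D V hM
  refine ⟨Q₀, fun Q hQ hvar => ?_⟩
  rw [holds_iff]
  refine h Q hQ (fun x hx1 hx2 => ?_)
  have h1 := (abs_le.1 (hvar x hx1 hx2)).2
  have h2 : Pool.Agent.Results.MP_5d318d_nt.ThinFamilyModuli.G x Q - x * Real.log Q ≤ 1 * (x * Real.log Q) := h1
  show Pool.Agent.Results.MP_5d318d_nt.ThinFamilyModuli.G x Q ≤ 2 * (x * Real.log Q)
  linarith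

open Classical in
/-- **The Brun–Titchmarsh inequality with the constant 1 for almost all classes, to all the multiples of the moduli near
`c + κ T(v)`.** Let `a`, `b ≥ 2`, `L ≥ 1`, `κ ≠ 0`, `B`, `J`, `W`, `D`, `U`, `V`, `M ≥ 2 D + V + 2` and `0 < ε ≤ 1` be
fixed and let `k` be large. Let an arbitrary transducer be given which reads digits `< a` and writes digits `< b` (with finitely or infinitely many
states) such that from every state two words of `L` digits lead to the same state, while different words are written; let it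
begin in an arbitrary state `s` and read from the left or from the right,
and let `c` be any integer with `|c| ≤ B b ^ k` (`k` must be large in terms of the fixed numbers only). Then all the
`v < a ^ k`, with at most `a ^ k / k ^ U` exceptions, have the following property, where `v'` is the integer which is written
when `v` is read. Let `q ≥ 1` be any integer at a distance of at most `k ^ W` from `c + κ v'` and let `1 ≤ h ≤ k ^ J` and
`d = h q`. Then for all reduced classes `l` modulo `d`, except for at most `φ(d) / (log d) ^ V` of them, the inequality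
`N(x, y; d, l) ≤ (1 + ε) y / (φ(d) log d)` is true for ALL real `x`, `y` with
`d (log d) ^ M ≤ y ≤ x ≤ d (log d) ^ (M + D)`. -/
theorem result (a b L : ℕ) (hb : 2 ≤ b) (hL : 1 ≤ L) (κ : ℤ) (hκ : κ ≠ 0) (B J W U : ℕ) (ε : ℝ) (hε : 0 < ε) (hε1 : ε ≤ 1)
    (M D V : ℕ) (hM : 2 * D + V + 2 ≤ M) :
    ∃ k₀ : ℕ, ∀ k : ℕ, k₀ ≤ k → ∀ (S : Type) (δ : S → ℕ → S) (o : S → ℕ → ℕ), Transducer a b L δ o →
      ∀ (left : Bool) (s : S) (c : ℤ), |c| ≤ B * (b : ℤ) ^ k →
      (((range (a ^ k)).filter fun v => ¬ ∀ q : ℕ, 1 ≤ q → |(q : ℤ) - (c + κ * (image a b δ o left k s v : ℕ))| ≤ (k : ℤ) ^ W →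
        ∀ h : ℕ, 1 ≤ h → h ≤ k ^ J → Holds ε V M D (h * q)).card : ℝ) ≤ (a : ℝ) ^ k / (k : ℝ) ^ U := by
  obtain ⟨Q₀, h0⟩ := holds_of ε hε hε1 M D V hM
  obtain ⟨k₀, hmain⟩ := Pool.Agent.N625.PT.t_var (tr_tcls a b L hb hL κ hκ) B J W (M + D + 1) U 1 one_pos le_rfl
    (Holds ε V M D) Q₀ h0
  refine ⟨k₀, fun k hk S δ o hT left s c hc => ?_⟩
  exact exceptions hb hT left k s (fun v => ∀ q : ℕ, 1 ≤ q → |(q : ℤ) - (c + κ * (v : ℕ))| ≤ (k : ℤ) ^ W →
    ∀ h : ℕ, 1 ≤ h → h ≤ k ^ J → Holds ε V M D (h * q)) U (hmain k hk _ ⟨S, δ, o, left, s, hT, rfl⟩ c hc)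

end Pool.Agent.Results.MP_26a8c3_nt.TransducerModuli
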