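import Pool.Agent.Run7.h844.RP.Main2
import Pool.Agent.TH872.GQ.BT

/-!
# The Brun-Titchmarsh inequality with the constant one in almost all classes, for all the multiples of the moduli near the values of generalised polynomials at primes

Method: exponential sums over primes with the phase of a generalised polynomial: derivative bounds uniform in the
coefficients, van der Corput differencing of all orders, bilinear sums, Vaughan's identity (after `Pool.Agent.H895R3.NK`,
`Pool.Agent.H373R2.T7`); a discrete Fejér kernel for the passage from real numbers to their integer parts, and a kernel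
estimate for the concentration on short intervals which needs only the large frequencies (library
`Pool.Agent.Run7.h844.RP`, after `Pool.Agent.N384.MQ`, `Pool.Agent.N193.PS`). The large spectrum of all the
multiples is thin, and the passage from such exponential sums to the variance of the primes for all the multiples of almost all
moduli is from the starting files (`Pool.Agent.Y958`, `Pool.Agent.Y885`, `Pool.Agent.TH894.PV`), in a generic form:
`Pool.Agent.N625.PT`.
-/

set_option autoImplicit false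

namespace Pool.Agent.Results.MP_26a8c3_nt.ValuesAtPrimes

open Finset

/-- The generalised polynomial `∑ a x * t ^ x`, `x ∈ F`, with real exponents and coefficients. -/
noncomputable def genPoly (F : Finset ℝ) (a : ℝ → ℝ) (t : ℝ) : ℝ := ∑ x ∈ F, a x * t ^ x

/-- `c` is the largest exponent; it is positive and not an integer, and its coefficient is not zero. -/
def Leading (F : Finset ℝ) (a : ℝ → ℝ) (c : ℝ) : Prop :=
  c ∈ F ∧ (∀ x ∈ F, x ≤ c) ∧ 0 < c ∧ (∀ m : ℕ, c ≠ m) ∧ a c ≠ 0

/-- `N(x, y; q, l)` for `0 ≤ y ≤ x` and `0 ≤ l < q`: the number of the primes `p` with `x - y < p ≤ x` and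
`p ≡ l (mod q)` -/
noncomputable def cnt (x y : ℝ) (q l : ℕ) : ℕ :=
  ((Ioc ⌊x - y⌋₊ ⌊x⌋₊).filter (fun p => p.Prime ∧ p % q = l)).card

open Classical in
/-- For all `l` with `0 ≤ l < q` and `gcd(l, q) = 1`, except for at most `φ(q) / (log q) ^ T` of them:
`N(x, y; q, l) ≤ (1 + ε) y / (φ(q) log q)` for ALL real `x`, `y` with `q (log q) ^ C ≤ y ≤ x ≤ q (log q) ^ (C + D)`. -/
def Holds (ε : ℝ) (T C D q : ℕ) : Prop :=
  (((range q).filter (fun l => Nat.Coprime l q ∧ ∃ x y : ℝ, q * Real.log q ^ C ≤ y ∧ y ≤ x ∧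
    x ≤ q * Real.log q ^ (C + D) ∧ (1 + ε) * (y / (Nat.totient q * Real.log q)) < cnt x y q l)).card : ℝ) ≤
    Nat.totient q / Real.log q ^ T

/-- `Holds` for all the multiples `h q`, `1 ≤ h ≤ H`, of all the integers `q > 0` at a distance of at most `R` from the real
number `y`. -/
def Near (ε : ℝ) (T C D : ℕ) (H R y : ℝ) : Prop :=
  ∀ q : ℕ, 0 < q → |(q : ℝ) - y| ≤ R → ∀ h : ℕ, 1 ≤ h → (h : ℝ) ≤ H → Holds ε T C D (h * q)

open Classical in
/-- Let `f` be a generalised polynomial whose largest exponent `c` is positive and not an integer, and let `0 < ε ≤ 1`, `J`, `D`,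
`T`, `W`, `U` and `C ≥ 2 D + T + 2` be fixed. If `X` is large and `z` is any real number with `|z| ≤ X ^ c`, then all the primes
`X < p ≤ 2 X`, with at most `X / log ^ U X` exceptions, have the following property: for ALL the multiples `Q = h q` with
`1 ≤ h ≤ log ^ J X` of ALL the integers `q > 0` at a distance of at most `log ^ W X` from `f(p) + z`, and for all reduced
classes `l` modulo `Q`, except for at most `φ(Q) / (log Q) ^ T` of them, `N(x, y; Q, l) ≤ (1 + ε) y / (φ(Q) log Q)` for ALL real
`x`, `y` with `Q (log Q) ^ C ≤ y ≤ x ≤ Q (log Q) ^ (C + D)`. -/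
theorem result (F : Finset ℝ) (a : ℝ → ℝ) (c : ℝ) (hF : Leading F a c) (J C D T W U : ℕ) (hC : 2 * D + T + 2 ≤ C)
    (ε : ℝ) (hε : 0 < ε) (hε1 : ε ≤ 1) :
    ∃ X₀ : ℕ, ∀ X : ℕ, X₀ ≤ X → ∀ z : ℝ, |z| ≤ (X : ℝ) ^ c →
      (((Ioc X (2 * X)).filter fun p : ℕ =>
        p.Prime ∧ ¬ Near ε T C D (Real.log X ^ J) (Real.log X ^ W) (genPoly F a p + z)).card : ℝ) ≤
        X / Real.log X ^ U := by
  obtain ⟨Q₀, hdet⟩ := Pool.Agent.TH872.GQ.BT.det ε hε hε1 C D T hC
  refine Pool.Agent.Run7.h844.RP.var_primes F c hF.1 hF.2.2.2.1 hF.2.2.1 hF.2.1 a hF.2.2.2.2 J W (C + D + 1) U 1 one_pos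
    le_rfl (Holds ε T C D) Q₀ fun Q hQ h => hdet Q hQ fun x hx1 hx2 => ?_
  have h1 := (abs_le.1 (h x hx1 hx2)).2
  show Pool.Agent.TH894.PV.G x Q ≤ 2 * (x * Real.log Q)
  linarith

end Pool.Agent.Results.MP_26a8c3_nt.ValuesAtPrimes
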